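import Pool.Agent.Helper66.QR.ResultOfBall

/-!
A bounded quasiregular map of the unit ball of three-space without radial limits on a set of positive
surface measure: explicit form.
-/

set_option autoImplicit false
open MeasureTheory Filter Topology Metric

namespace Pool.Agent.Helper66.OWN

open Pool.Agent.Helper66.QR

/-- a locally Lipschitz map of the ball is differentiable almost everywhere in the ball -/
theorem ae_diff {f : E3 → E3} (hf : LocallyLipschitzOn (ball (0 : E3) 1) f) :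
    ∀ᵐ x : E3, x ∈ ball (0 : E3) 1 → DifferentiableAt ℝ f x := by
  have h : ∀ n : ℕ, ∀ᵐ x : E3, x ∈ closedBall (0 : E3) (1 - 1 / ((n : ℝ) + 1)) →
      DifferentiableAt ℝ f x := by
    intro n
    have hn : (1 : ℝ) - 1 / ((n : ℝ) + 1) < 1 := by
      have : 0 < 1 / ((n : ℝ) + 1) := by positivity
      linarith
    obtain ⟨C, g, hg, hgf⟩ := MD.exists_ext hf (closedBall (0 : E3) (1 - 1 / ((n : ℝ) + 1)))
      (isCompact_closedBall _ _) (closedBall_subset_ball hn)
    filter_upwards [hg.ae_differentiableAt] with x hx hxn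
    exact hx.congr_of_eventuallyEq (hgf x hxn).symm
  filter_upwards [ae_all_iff.2 h] with x hx hxb
  rw [mem_ball_zero_iff] at hxb
  obtain ⟨n, hn⟩ := exists_nat_one_div_lt (sub_pos.2 hxb)
  refine hx n ?_
  rw [mem_closedBall_zero_iff]
  linarith

/-- almost every direction for the surface measure implies almost every point of space -/
theorem ae_of_sphere (P : sphere (0 : E3) 1 → Prop)
    (h : ∀ᵐ ξ ∂((volume : Measure E3).toSphere), P ξ) :
    ∀ᵐ x : E3, x ≠ 0 → ∀ ξ : sphere (0 : E3) 1, (ξ : E3) = ‖x‖⁻¹ • x → P ξ := by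
  have h2 : ∀ᵐ p ∂((volume : Measure E3).toSphere.prod
      (Measure.volumeIoiPow (Module.finrank ℝ E3 - 1))), P p.1 :=
    Measure.quasiMeasurePreserving_fst.ae h
  have h3 := (Measure.measurePreserving_homeomorphUnitSphereProd
    (volume : Measure E3)).quasiMeasurePreserving.ae h2
  have h4 : ∀ᵐ x : (({0} : Set E3)ᶜ : Set E3) ∂(Measure.comap (↑) (volume : Measure E3)),
      ∀ ξ : sphere (0 : E3) 1, (ξ : E3) = ‖(x : E3)‖⁻¹ • (x : E3) → P ξ := by
    filter_upwards [h3] with x hx ξ hξ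
    have e : ξ = (homeomorphUnitSphereProd E3 x).1 := by
      apply Subtype.ext
      rw [hξ, homeomorphUnitSphereProd_apply_fst_coe]
    rw [e]
    exact hx
  have h5 := (ae_restrict_iff_subtype (μ := (volume : Measure E3))
    (measurableSet_singleton (0 : E3)).compl
    (p := fun x : E3 => ∀ ξ : sphere (0 : E3) 1, (ξ : E3) = ‖x‖⁻¹ • x → P ξ)).2 h4
  exact (ae_restrict_iff' (measurableSet_singleton (0 : E3)).compl).1 h5

theorem own_of_ball (h : BallStatement) :
    ∃ (f : EuclideanSpace ℝ (Fin 3) → EuclideanSpace ℝ (Fin 3)) (K : ℝ), 1 ≤ K ∧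
      LocallyLipschitzOn (ball (0 : EuclideanSpace ℝ (Fin 3)) 1) f ∧
      (∀ x ∈ ball (0 : EuclideanSpace ℝ (Fin 3)) 1, ‖f x‖ < 1) ∧
      (∀ᵐ x : EuclideanSpace ℝ (Fin 3), x ∈ ball (0 : EuclideanSpace ℝ (Fin 3)) 1 →
        DifferentiableAt ℝ f x ∧ ‖fderiv ℝ f x‖ ^ 3 ≤ K * (fderiv ℝ f x).det) ∧
      (∀ A : Set (EuclideanSpace ℝ (Fin 3)), IsCompact A →
        A ⊆ ball (0 : EuclideanSpace ℝ (Fin 3)) 1 →
        IntegrableOn (fun x => ‖fderiv ℝ f x‖ ^ 3) A) ∧
      (∀ φ : EuclideanSpace ℝ (Fin 3) → ℝ, ContDiff ℝ 1 φ → HasCompactSupport φ →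
        tsupport φ ⊆ ball (0 : EuclideanSpace ℝ (Fin 3)) 1 →
        ∀ v : EuclideanSpace ℝ (Fin 3),
          ∫ x, (fderiv ℝ φ x v) • f x = - ∫ x, φ x • (fderiv ℝ f x v)) ∧
      0 < (volume : Measure (EuclideanSpace ℝ (Fin 3))).toSphere
        {ξ : sphere (0 : EuclideanSpace ℝ (Fin 3)) 1 |
          ¬ ∃ L : EuclideanSpace ℝ (Fin 3),
            Tendsto (fun r : ℝ => f (r • (ξ : EuclideanSpace ℝ (Fin 3)))) (𝓝[<] 1) (𝓝 L)} := by
  obtain ⟨f0, hf0, ⟨M, hM⟩, ⟨K, hK, hqr⟩, hlim⟩ := h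
  set c : ℝ := 1 / (|M| + 1) with hc
  have hc0 : 0 < c := by positivity
  have hL : LocallyLipschitzOn (ball (0 : E3) 1) (fun x => c • f0 x) := by
    intro x hx
    obtain ⟨C, t, ht, hC⟩ := hf0 hx
    exact ⟨‖c‖₊ * C, t, ht, (lipschitzWith_smul c).comp_lipschitzOnWith hC⟩
  have hfd : ∀ x, fderiv ℝ (fun x => c • f0 x) x = c • fderiv ℝ f0 x := by
    intro x
    by_cases hd : DifferentiableAt ℝ f0 x
    · exact fderiv_const_smul hd c
    · have e0 : c • (0 : E3 →L[ℝ] E3) = 0 := by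
        ext v
        simp
      rw [fderiv_zero_of_not_differentiableAt hd, e0]
      apply fderiv_zero_of_not_differentiableAt
      intro h
      apply hd
      have h2 := h.const_smul c⁻¹
      have e : (c⁻¹ • fun x => c • f0 x) = f0 := by
        funext y
        change c⁻¹ • c • f0 y = f0 y
        rw [inv_smul_smul₀ hc0.ne']
      rwa [e] at h2
  refine ⟨fun x => c • f0 x, K, hK, hL, ?_, ?_, ?_, ?_, ?_⟩
  · intro x hx
    have h1 := (hM x hx).trans (le_abs_self M)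
    rw [norm_smul, Real.norm_of_nonneg hc0.le, hc, one_div, inv_mul_lt_iff₀ (by positivity)]
    linarith
  · filter_upwards [ae_diff hL, hqr] with x h1 h2 hx
    refine ⟨h1 hx, ?_⟩
    have h3 := h2 hx
    unfold QRat at h3
    rw [hfd, norm_smul, Real.norm_of_nonneg hc0.le, mul_pow]
    have h4 : (c • fderiv ℝ f0 x).det = c ^ 3 * (fderiv ℝ f0 x).det := by
      unfold ContinuousLinearMap.det
      rw [ContinuousLinearMap.toLinearMap_smul, LinearMap.det_smul]
      congr 1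
      simp
    rw [h4]
    calc c ^ 3 * ‖fderiv ℝ f0 x‖ ^ 3 ≤ c ^ 3 * (K * (fderiv ℝ f0 x).det) :=
          mul_le_mul_of_nonneg_left h3 (by positivity)
      _ = K * (c ^ 3 * (fderiv ℝ f0 x).det) := by ring
  · exact fun A hA hAb => MD.integrableOn_pow hL A hA hAb
  · exact fun φ hφ hφc hφb v => MD.ibp hL φ hφ hφc hφb v
  · rw [pos_iff_ne_zero]
    intro h0
    apply hlim
    have h1 : ∀ᵐ (ξ : sphere (0 : E3) 1) ∂((volume : Measure E3).toSphere), ∃ L : E3,
        Tendsto (fun r : ℝ => c • f0 (r • (ξ : E3))) (𝓝[<] 1) (𝓝 L) := by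
      rw [ae_iff]
      exact h0
    filter_upwards [ae_of_sphere _ h1] with x hx hx0
    have hn : ‖(‖x‖⁻¹ • x : E3)‖ = 1 := by
      rw [norm_smul, norm_inv, norm_norm, inv_mul_cancel₀ (norm_ne_zero_iff.2 hx0)]
    obtain ⟨L, hL'⟩ := hx hx0 ⟨‖x‖⁻¹ • x, by rw [mem_sphere_zero_iff_norm]; exact hn⟩ rfl
    refine ⟨c⁻¹ • L, ?_⟩
    have h5 := hL'.const_smul c⁻¹
    refine h5.congr fun r => ?_
    rw [inv_smul_smul₀ hc0.ne']

end Pool.Agent.Helper66.OWN
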